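import Pool.Agent.H27.L1.H34.GHK.All
import Pool.Agent.H27.L1.H34.GZZ.HYZ

/-!
Board thn (MP_52e316_nt): the second moment in short windows over thin families of cusp forms on GL(m).
One Hecke operator in place of the product of two: the kernel has the majorant `Kd` at `√y`.
-/

set_option autoImplicit false

namespace Pool.Agent.H47.THN

open MeasureTheory Pool.Agent.H27.L1.H34.GM Pool.Agent.H27.L1.H34.GZ Pool.Agent.H27.L1.H34.GU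
  Pool.Agent.H27.L1.H34.GA Pool.Agent.H27.L1.H68.GHY Pool.Agent.H27.L1.H34.GHY
open Pool.Agent.H27.L1.H68.GHK (ip rt Hn OrS)

open Classical in
/-- the kernel of one Hecke operator -/
noncomputable def K1 {m N : ℕ} (Φ : Mat m → ℂ) (a : ℕ → ℂ) (d x0 : ℝ) (g : Mat m) (x : VN m N)
    (h : Mat m) (w : VN m N) : ℂ :=
  ∑' γ : ZM m, if ac N γ x = w ∧ Pr w ∧ γ.det ≠ 0 ∧ wd x0 d γ.det.natAbs then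
    a γ.det.natAbs * Φ (kk (aN (cR γ)) h (cR γ) g) else 0

open Classical in
/-- the short sum of the coefficients -/
noncomputable def B1 (m : ℕ) (lam a : ℕ → ℂ) (y d x : ℝ) : ℂ :=
  ∑ n ∈ Finset.Icc 1 ⌊y⌋₊, if wd x d n then tl m lam a n else 0

/-! ### the kernel -/

open Classical in
/-- the majorant of the kernel and the kernel as a sum -/
def T_KC1 : Prop := ∀ (m N : ℕ) [NeZero N] (χ : ℝ → ℝ), 1 ≤ m → 1 ≤ N → Prof χ →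
  ∀ (y : ℝ) (a : ℕ → ℂ) (d x0 : ℝ), 1 ≤ y → Coe y a → 0 < d → d ≤ 1 / 2 → 0 < x0 →
    (∀ (g h : Mat m) (x w : VN m N),
      ENNReal.ofReal ‖K1 (bi m χ d) a d x0 g x h w‖ ≤ Kd d (Real.sqrt y) x0 g x h w) ∧
    ∀ (F : VN m N → ℂ), (∀ x, ¬ Pr x → F x = 0) → ∀ (g h : Mat m) (x : VN m N),
      g.det ≠ 0 → h.det ≠ 0 →
      ∑' γ : ZM m, (if γ.det ≠ 0 ∧ wd x0 d γ.det.natAbs then a γ.det.natAbs else 0) *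
        (bi m χ d (kk (aN (cR γ)) h (cR γ) g) * F (ac N γ x)) =
      ∑ w : VN m N, K1 (bi m χ d) a d x0 g x h w * F w

/-- measurability of the kernel -/
def T_KM1 : Prop := ∀ (m N : ℕ) (d : ℝ) (x w : VN m N), 1 ≤ m → ∀ Φ : Mat m → ℂ, Tg m Φ →
  ∀ (a : ℕ → ℂ) (x0 : ℝ),
    Measurable (fun p : V m × V m => K1 Φ a d x0 (mt p.1) x (mt p.2) w)

/-- the eigenvalue of the operator -/
def T_OC1 : Prop := ∀ (m N : ℕ) [NeZero N] (T : ℕ → Finset (ZM m)) (D : Set (V m)),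
  SysZ m N T D → ∀ (F : Mat m → VN m N → ℂ) (lam : ℕ → ℂ), HecA m N T F lam →
  ∀ (χ : ℝ → ℝ), Prof χ → ∀ (y : ℝ) (a : ℕ → ℂ) (d x0 : ℝ), 1 ≤ y → Coe y a → 0 < d →
  d ≤ 1 / 2 → 0 < x0 → ∀ (g : Mat m) (x : VN m N), g.det ≠ 0 →
    ∫ z in D, ∑ w : VN m N, K1 (bi m χ d) a d x0 g x (mt z) w * F (mt z) w ∂(hm m) =
      B1 m lam a y d x0 * Rr (bi m χ d) 1 F g x

/-! ### the inequalities of Bessel -/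

/-- the inequality of Bessel with the weights `W i`, on `DY D Y` -/
def BES1 (m : ℕ) {ι : Type} [Fintype ι] (W : ι → ENNReal) (lam : ι → ℕ → ℂ) (N : ℕ) [NeZero N]
    (D : Set (V m)) (χ : ℝ → ℝ) (c δ Y : ℝ) : Prop :=
  ∀ (y : ℝ) (a : ℕ → ℂ) (x0 : ℝ), 1 ≤ y → Coe y a → 0 < x0 →
    ENNReal.ofReal (c * tb m χ δ ^ 2) * ∑ i, W i * ENNReal.ofReal (‖B1 m (lam i) a y δ x0‖ ^ 2) ≤
      ∫⁻ g in DY D Y, Ed N D δ (Real.sqrt y) x0 (mt g) ∂(hm m)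

/-- for orthonormal forms, weights `1` -/
def T_BO1 : Prop := ∀ (m : ℕ) (χ : ℝ → ℝ), 1 ≤ m → Prof χ → ∃ (c C : ℝ) (A : ℕ), 0 < c ∧ 1 ≤ C ∧
  ∀ (N : ℕ) [NeZero N] (T : ℕ → Finset (ZM m)) (D : Set (V m)), SysZ m N T D →
  ∀ (ι : Type) [Fintype ι] [DecidableEq ι] (F : ι → Mat m → VN m N → ℂ) (lam : ι → ℕ → ℂ) (P : ℝ),
  (∀ i, CusB m N T (F i) (lam i) ∧ Lip D (F i) P ∧ nU D (F i) = 1) → Orthn D F → 0 ≤ P →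
  ∀ δ : ℝ, 0 < δ → δ ≤ 1 / 2 → δ * (1 + P) ≤ c →
  ∀ Y : ℝ, C * N * δ⁻¹ ^ A ≤ Y → BES1 m (fun _ => 1) lam N D χ c δ Y

/-- for forms which generate orthogonal spaces, weights `≤ 1 / Hn` -/
def T_BW1 : Prop := ∀ (m : ℕ) (χ : ℝ → ℝ) (r : ℝ), 1 ≤ m → Prof χ → 0 < r →
  ∃ (c C : ℝ) (A : ℕ), 0 < c ∧ 1 ≤ C ∧
  ∀ (N : ℕ) [NeZero N] (T : ℕ → Finset (ZM m)) (D : Set (V m)), SysZ m N T D →
  ∀ (ι : Type) [Fintype ι] [DecidableEq ι] (F : ι → Mat m → VN m N → ℂ) (lam : ι → ℕ → ℂ) (P : ℝ),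
  (∀ i, CusB m N T (F i) (lam i) ∧ Lip D (F i) P) → OrS D F → 0 ≤ P →
  ∀ δ : ℝ, 0 < δ → δ ≤ 1 / 2 → δ * (1 + P) ≤ c →
  ∀ Y : ℝ, C * N * δ⁻¹ ^ A ≤ Y →
    BES1 m (fun i => ENNReal.ofReal (Hn r D (F i))⁻¹) lam N D χ c δ Y

/-! ### the large sieve -/

/-- the large sieve for the short sums, with the weights `W i` -/
def LSD1 (m : ℕ) (ε C : ℝ) (K : ℕ) {ι : Type} [Fintype ι] (W : ι → ENNReal) (lam : ι → ℕ → ℂ)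
    (N : ℕ) (δ : ℝ) : Prop :=
  ∀ (y : ℝ) (a : ℕ → ℂ), 1 ≤ y → Coe y a →
    ∑ i, W i * ∫⁻ x0 in Set.Ioi (0 : ℝ), ENNReal.ofReal (‖B1 m (lam i) a y δ x0‖ ^ 2 * x0⁻¹) ≤
      ENNReal.ofReal (C * δ ^ 2 * δ⁻¹ ^ (m ^ 2) * (N : ℝ) ^ ((m : ℝ) + ε) *
        (1 + Real.log (y * N * δ⁻¹)) ^ K * y ^ m * (1 + δ ^ m * y / N) ^ m)

/-- the mean square of the Dirichlet polynomials, with the weights `W i` -/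
def LT2 (m : ℕ) (ε C : ℝ) (K : ℕ) {ι : Type} [Fintype ι] (W : ι → ENNReal) (lam : ι → ℕ → ℂ)
    (N : ℕ) (δ : ℝ) : Prop :=
  ∀ (y : ℝ) (a : ℕ → ℂ), 1 ≤ y → Coe y a →
    ∑ i, W i * ∫⁻ t in Set.Icc (-δ⁻¹) δ⁻¹, ENNReal.ofReal (‖DP m (lam i) a y t‖ ^ 2) ≤
      ENNReal.ofReal (C * δ⁻¹ ^ (m ^ 2) * (N : ℝ) ^ ((m : ℝ) + ε) *
        (1 + Real.log (y * N * δ⁻¹)) ^ K * y ^ m * (1 + δ ^ m * y / N) ^ m)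

/-- the large sieve from the inequality of Bessel -/
def T_LS1 : Prop := ∀ (m : ℕ), 1 ≤ m → ∀ (ε : ℝ), 0 < ε → ∀ (χ : ℝ → ℝ), Prof χ →
  ∀ (cM CM : ℝ) (AM : ℕ), 0 < cM → 1 ≤ CM →
    ∃ (C : ℝ) (K : ℕ), 0 < C ∧ ∀ (N : ℕ) [NeZero N] (D : Set (V m)), 1 ≤ N → DomZ m D →
    ∀ δ : ℝ, 0 < δ → δ ≤ 1 / 2 → ∀ (ι : Type) [Fintype ι] (W : ι → ENNReal) (lam : ι → ℕ → ℂ),
    (∀ i, W i ≠ ⊤) → (∀ Y : ℝ, 2 ≤ Y → CM * N * δ⁻¹ ^ AM ≤ Y → BES1 m W lam N D χ cM δ Y) →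
      LSD1 m ε C K W lam N δ

/-- the mean square of the Dirichlet polynomials from the large sieve -/
def T_LQ1 : Prop := ∀ m : ℕ, ∃ C' : ℝ, 0 < C' ∧
  ∀ (ε C : ℝ) (K : ℕ) (ι : Type) [Fintype ι] (W : ι → ENNReal) (lam : ι → ℕ → ℂ) (N : ℕ)
    (δ : ℝ), 0 < δ → δ ≤ 1 / 2 → LSD1 m ε C K W lam N δ → LT2 m ε (C' * C) K W lam N δ

/-- the sum of the weights -/
def T_CR1 : Prop := ∀ (m : ℕ) (ε : ℝ), 0 < ε → ∀ (C : ℝ), 0 < C → ∀ (K : ℕ), ∃ C2 : ℝ, 0 < C2 ∧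
  ∀ (ι : Type) [Fintype ι] (W : ι → ENNReal) (lam : ι → ℕ → ℂ) (N : ℕ) (δ : ℝ), 1 ≤ N →
    0 < δ → δ ≤ 1 / 2 → (∀ i, lam i 1 = 1) → LT2 m (ε / 2) C K W lam N δ →
    (∑ i, W i) * ENNReal.ofReal δ⁻¹ ≤
      ENNReal.ofReal (C2 * ((N : ℝ) * δ⁻¹) ^ ε * (N : ℝ) ^ m * δ⁻¹ ^ (m ^ 2))

/-- the mean square of the truncated L-functions -/
def T_DY1 : Prop := ∀ (m : ℕ) (ε : ℝ), 0 < ε → ∀ (C : ℝ), 0 < C → ∀ (K : ℕ), ∃ C3 : ℝ, 0 < C3 ∧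
  ∀ (ι : Type) [Fintype ι] (W : ι → ENNReal) (lam : ι → ℕ → ℂ) (N : ℕ) (δ : ℝ), 1 ≤ N →
    0 < δ → δ ≤ 1 / 2 → (∀ i, W i ≠ ⊤) → LT2 m ε C K W lam N δ → ∀ X : ℝ, 1 ≤ X → ∀ τ : ℝ,
    ∑ i, W i * ∫⁻ t in Set.Icc (-δ⁻¹) δ⁻¹, ENNReal.ofReal (‖SD (lam i) X (t + τ)‖ ^ 2) ≤
      ENNReal.ofReal (C3 * ((N : ℝ) * δ⁻¹ * X) ^ (2 * ε) * (N : ℝ) ^ m * δ⁻¹ ^ (m ^ 2) *
        (1 + δ ^ m * X / N) ^ m)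

/-! ### the second moment in a window -/

/-- the size of the second moment in the window `|t - t0| ≤ H` -/
noncomputable def Q2 (m N : ℕ) (H t0 : ℝ) : ℝ :=
  (N : ℝ) ^ m * H ^ (m ^ 2) + (N : ℝ) ^ ((m : ℝ) / 2) * (H + |t0|) ^ ((m : ℝ) ^ 2 / 2)

/-- from the truncated L-functions to the L-functions, for given weights -/
def T_GK1 : Prop := ∀ (m : ℕ), 1 ≤ m → ∀ (ε : ℝ), 0 < ε →
  ∃ e1 : ℝ, 0 < e1 ∧ ∀ c' C1 C3 : ℝ, 0 < c' → c' ≤ 1 / 2 → 0 < C1 → 0 < C3 →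
  ∃ C : ℝ, 0 < C ∧
  ∀ (N : ℕ) [NeZero N] (T : ℕ → Finset (ZM m)) (D : Set (V m)), SysZ m N T D →
  ∀ H : ℝ, 1 ≤ H → ∀ (ι : Type) [Fintype ι] [DecidableEq ι] (F : ι → Mat m → VN m N → ℂ)
    (lam : ι → ℕ → ℂ) (W : ι → ℝ),
    (∀ i, CusB m N T (F i) (lam i) ∧ Lip D (F i) H ∧ nU D (F i) = 1) → (∀ i, 0 ≤ W i) →
    ∀ δ : ℝ, δ = c' / H →
    (∑ i, W i) * δ⁻¹ ≤ C3 * ((N : ℝ) * δ⁻¹) ^ e1 * (N : ℝ) ^ m * δ⁻¹ ^ (m ^ 2) →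
    (∀ X : ℝ, 1 ≤ X → ∀ τ : ℝ, ∑ i, ENNReal.ofReal (W i) *
      ∫⁻ t in Set.Icc (-δ⁻¹) δ⁻¹, ENNReal.ofReal (‖SD (lam i) X (t + τ)‖ ^ 2) ≤
        ENNReal.ofReal (C1 * ((N : ℝ) * δ⁻¹ * X) ^ (2 * e1) * (N : ℝ) ^ m * δ⁻¹ ^ (m ^ 2) *
          (1 + δ ^ m * X / N) ^ m)) →
    ∃ L : ι → ℂ → ℂ, (∀ i, IsL m 1 (lam i) (L i)) ∧
      ∀ (t0 : ℝ) (J : ι → Finset ℝ), (∀ i, Wsp (J i)) → (∀ i, ∀ t ∈ J i, |t - t0| ≤ H) →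
      ∑ i, W i * ∑ t ∈ J i, ‖L i (1 / 2 + t * Complex.I)‖ ^ 2 ≤
        C * ((N : ℝ) * (H + |t0|)) ^ ε * Q2 m N H t0

/-- the second moment in a window from the inequality of Bessel, for given weights -/
def T_GB1 : Prop := ∀ (m : ℕ), 1 ≤ m → ∀ (ε : ℝ), 0 < ε → ∀ (χ : ℝ → ℝ), Prof χ →
  ∀ (cM CM : ℝ) (AM : ℕ), 0 < cM → 1 ≤ CM → ∀ c' : ℝ, 0 < c' → c' ≤ 1 / 2 →
  ∃ C : ℝ, 0 < C ∧
  ∀ (N : ℕ) [NeZero N] (T : ℕ → Finset (ZM m)) (D : Set (V m)), SysZ m N T D →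
  ∀ H : ℝ, 1 ≤ H → ∀ (ι : Type) [Fintype ι] [DecidableEq ι] (F : ι → Mat m → VN m N → ℂ)
    (lam : ι → ℕ → ℂ) (W : ι → ℝ),
    (∀ i, CusB m N T (F i) (lam i) ∧ Lip D (F i) H ∧ nU D (F i) = 1) → (∀ i, 0 ≤ W i) →
    ∀ δ : ℝ, δ = c' / H →
    (∀ Y : ℝ, 2 ≤ Y → CM * N * δ⁻¹ ^ AM ≤ Y →
      BES1 m (fun i => ENNReal.ofReal (W i)) lam N D χ cM δ Y) →
    ∃ L : ι → ℂ → ℂ, (∀ i, IsL m 1 (lam i) (L i)) ∧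
      ∀ (t0 : ℝ) (J : ι → Finset ℝ), (∀ i, Wsp (J i)) → (∀ i, ∀ t ∈ J i, |t - t0| ≤ H) →
      ∑ i, W i * ∑ t ∈ J i, ‖L i (1 / 2 + t * Complex.I)‖ ^ 2 ≤
        C * ((N : ℝ) * (H + |t0|)) ^ ε * Q2 m N H t0

/-- orthonormal forms, weights `1` -/
def T_GO1 : Prop := ∀ m : ℕ, 1 ≤ m → ∀ ε : ℝ, 0 < ε → ∃ C : ℝ, 0 < C ∧
  ∀ (N : ℕ) [NeZero N] (T : ℕ → Finset (ZM m)) (D : Set (V m)), SysZ m N T D →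
  ∀ H : ℝ, 1 ≤ H → ∀ (ι : Type) [Fintype ι] [DecidableEq ι] (F : ι → Mat m → VN m N → ℂ)
    (lam : ι → ℕ → ℂ),
    (∀ i, CusB m N T (F i) (lam i) ∧ Lip D (F i) H) → Orthn D F →
    ∃ L : ι → ℂ → ℂ, (∀ i, IsL m 1 (lam i) (L i)) ∧
      ∀ (t0 : ℝ) (J : ι → Finset ℝ), (∀ i, Wsp (J i)) → (∀ i, ∀ t ∈ J i, |t - t0| ≤ H) →
      ∑ i, ∑ t ∈ J i, ‖L i (1 / 2 + t * Complex.I)‖ ^ 2 ≤
        C * ((N : ℝ) * (H + |t0|)) ^ ε * Q2 m N H t0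

/-- forms which generate orthogonal spaces, weights `1 / Hn` -/
def T_GH1 : Prop := ∀ m : ℕ, 1 ≤ m → ∀ r ε : ℝ, 0 < r → 0 < ε → ∃ C : ℝ, 0 < C ∧
  ∀ (N : ℕ) [NeZero N] (T : ℕ → Finset (ZM m)) (D : Set (V m)), SysZ m N T D →
  ∀ H : ℝ, 1 ≤ H → ∀ (ι : Type) [Fintype ι] [DecidableEq ι] (F : ι → Mat m → VN m N → ℂ)
    (lam : ι → ℕ → ℂ),
    (∀ i, CusB m N T (F i) (lam i) ∧ Lip D (F i) H) → OrS D F →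
    ∃ L : ι → ℂ → ℂ, (∀ i, IsL m 1 (lam i) (L i)) ∧
      ∀ (t0 : ℝ) (J : ι → Finset ℝ), (∀ i, Wsp (J i)) → (∀ i, ∀ t ∈ J i, |t - t0| ≤ H) →
      ∑ i, (Hn r D (F i))⁻¹ * ∑ t ∈ J i, ‖L i (1 / 2 + t * Complex.I)‖ ^ 2 ≤
        C * ((N : ℝ) * (H + |t0|)) ^ ε * Q2 m N H t0

/-- one level, all the admissible weights -/
def T_LV1 : Prop := ∀ m : ℕ, 1 ≤ m → ∀ ε : ℝ, 0 < ε → ∃ C : ℝ, 0 < C ∧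
  ∀ (N : ℕ) [NeZero N] (T : ℕ → Finset (ZM m)) (D : Set (V m)), SysZ m N T D →
    ∀ H : ℝ, 1 ≤ H → ∀ (S : Type) [Fintype S] [DecidableEq S]
      (F : S → Mat m → VN m N → ℂ) (lam : S → ℕ → ℂ) (W : S → ℝ),
      (∀ i, CusB m N T (F i) (lam i) ∧ Lip D (F i) H) → Orthn D F → (∀ i, 0 ≤ W i) →
      (∀ i, W i ≤ 1 ∨ (∃ mu : Fin m → ℂ, EigU m N T (F i) (lam i) mu ∧
          W i ≤ Pool.Agent.H27.L1.H34.GHK.pl mu) ∨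
        ((∀ j, j ≠ i → ∀ u : Mat m, u.det ≠ 0 → ip D (rt u (F i)) (F j) = 0) ∧
          W i ≤ (Hn (1 / (2 * (m : ℝ))) D (F i))⁻¹)) →
      ∃ L : S → ℂ → ℂ, (∀ i, IsL m 1 (lam i) (L i)) ∧
        ∀ (t0 : ℝ) (J : S → Finset ℝ), (∀ i, Wsp (J i)) → (∀ i, ∀ t ∈ J i, |t - t0| ≤ H) →
          ∑ i, W i * ∑ t ∈ J i, ‖L i (1 / 2 + t * Complex.I)‖ ^ 2 ≤
            C * ((N : ℝ) * (H + |t0|)) ^ ε * Q2 m N H t0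

end Pool.Agent.H47.THN
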