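import Pool.Agent.H47.THN.Targets

/-!
Row GB1 of the board thn: the second moment in a window from the inequality of Bessel with given weights.
-/

set_option autoImplicit false

namespace Pool.Agent.H47.THN

open MeasureTheory Pool.Agent.H27.L1.H34.GM Pool.Agent.H27.L1.H34.GZ Pool.Agent.H27.L1.H34.GU
  Pool.Agent.H27.L1.H34.GA Pool.Agent.H27.L1.H68.GHY Pool.Agent.H27.L1.H34.GHY
open Pool.Agent.H27.L1.H23.GB Pool.Agent.H27.L1.H34.GZZ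
open Pool.Agent.H27.L1.H69.GA Pool.Agent.H27.L1.H69.GB

theorem pf_GB1 (hLS1 : T_LS1) (hLQ1 : T_LQ1) (hCR1 : T_CR1) (hDY1 : T_DY1) (hGK1 : T_GK1) :
    T_GB1 := by
  intro m hm1 ε hε χ hχ cM CM AM hcM hCM c' hc' hc'1
  obtain ⟨e1, he1, h⟩ := hGK1 m hm1 ε hε
  obtain ⟨Ca, Ka, hCa, hLa⟩ := hLS1 m hm1 (e1 / 2) (by positivity) χ hχ cM CM AM hcM hCM
  obtain ⟨Cb, Kb, hCb, hLb⟩ := hLS1 m hm1 e1 he1 χ hχ cM CM AM hcM hCM
  obtain ⟨Cq, hCq, hQ⟩ := hLQ1 m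
  obtain ⟨C3, hC3, hR⟩ := hCR1 m e1 he1 (Cq * Ca) (by positivity) Ka
  obtain ⟨C1, hC1, hD⟩ := hDY1 m e1 he1 (Cq * Cb) (by positivity) Kb
  obtain ⟨C, hC, hb⟩ := h c' C1 C3 hc' hc'1 hC1 hC3
  refine ⟨C, hC, ?_⟩
  intro N _ T D hS H hH ι _ _ F lam W hF hW δ hδ hBes
  have hH0 : 0 < H := by linarith
  have hN1 : 1 ≤ N := by
    have := hS.two_le
    omega
  have hδ0 : 0 < δ := by rw [hδ]; positivity
  have hδP : δ * H = c' := by rw [hδ]; field_simp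
  have hδP1 : δ ≤ δ * H := le_mul_of_one_le_right hδ0.le hH
  have hδ1 : δ ≤ 1 / 2 := by linarith
  have hWt : ∀ i, (fun i => ENNReal.ofReal (W i)) i ≠ ⊤ := fun i => ENNReal.ofReal_ne_top
  have h1 : ∀ i, lam i 1 = 1 := fun i =>
    lam_one hS (hF i).1.toHecA (spx_nz hS (by rw [(hF i).2.2]; exact one_ne_zero))
  have hLTa := hQ (e1 / 2) Ca Ka ι (fun i => ENNReal.ofReal (W i)) lam N δ hδ0 hδ1
    (hLa N D hN1 hS.dom δ hδ0 hδ1 ι (fun i => ENNReal.ofReal (W i)) lam hWt hBes)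
  have hLTb := hQ e1 Cb Kb ι (fun i => ENNReal.ofReal (W i)) lam N δ hδ0 hδ1
    (hLb N D hN1 hS.dom δ hδ0 hδ1 ι (fun i => ENNReal.ofReal (W i)) lam hWt hBes)
  refine hb N T D hS H hH ι F lam W hF hW δ hδ ?_ ?_
  · have h2 := hR ι (fun i => ENNReal.ofReal (W i)) lam N δ hN1 hδ0 hδ1 h1 hLTa
    rw [← ENNReal.ofReal_sum_of_nonneg (fun i _ => hW i),
      ← ENNReal.ofReal_mul (Finset.sum_nonneg fun i _ => hW i),
      ENNReal.ofReal_le_ofReal_iff (by positivity)] at h2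
    exact h2
  · intro X hX1 τ
    exact hD ι (fun i => ENNReal.ofReal (W i)) lam N δ hN1 hδ0 hδ1 hWt hLTb X hX1 τ

end Pool.Agent.H47.THN
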