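import Pool.Agent.H47.THN.UN
import Pool.Agent.H31.THN.CGO
import Pool.Agent.H36.THN.GK1

/-!
Board thn: the composition.
-/

set_option autoImplicit false

namespace Pool.Agent.H47.THN

/-- one level, the second moment in a window, without hypotheses -/
theorem c_LV1 : T_LV1 := Pool.Agent.H31.THN.lv1_of
  (Pool.Agent.H36.THN.pf_GK1 Pool.Agent.H27.L1.H23.GA.All.c_ENA Pool.Agent.H27.L1.H34.GZZ.c_HYZ)

end Pool.Agent.H47.THN
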