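import Pool.Agent.H47.THN.Targets

/-!
Row GO1 of the board thn: the second moment in a window over orthonormal families.
-/

set_option autoImplicit false

namespace Pool.Agent.H47.THN

open MeasureTheory Pool.Agent.H27.L1.H34.GM Pool.Agent.H27.L1.H34.GZ Pool.Agent.H27.L1.H34.GU
  Pool.Agent.H27.L1.H34.GA Pool.Agent.H27.L1.H68.GHY Pool.Agent.H27.L1.H34.GHY
open Pool.Agent.H27.L1.H68.GHK (ip rt Hn OrS)

theorem pf_GO1 (hPRF : T_PRF) (hBO1 : T_BO1) (hGB1 : T_GB1) : T_GO1 := by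
  obtain ⟨χ, hχ⟩ := hPRF
  intro m hm1 ε hε
  obtain ⟨c0, CM, AM, hc0, hCM, hK⟩ := hBO1 m χ hm1 hχ
  obtain ⟨c', hc', hc'1, hc'0⟩ : ∃ c' : ℝ, 0 < c' ∧ c' ≤ 1 / 2 ∧ c' ≤ c0 / 2 :=
    ⟨min (1 / 2) (c0 / 2), lt_min (by norm_num) (by positivity), min_le_left _ _,
      min_le_right _ _⟩
  obtain ⟨C, hC, hb⟩ := hGB1 m hm1 ε hε χ hχ c0 CM AM hc0 hCM c' hc' hc'1
  refine ⟨C, hC, ?_⟩
  intro N _ T D hS H hH ι _ _ F lam hF hO
  have hH0 : 0 < H := by linarith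
  have hn1 : ∀ i, nU D (F i) = 1 := fun i => mou_nU F hO i
  obtain ⟨δ, hδ⟩ : ∃ δ : ℝ, δ = c' / H := ⟨_, rfl⟩
  have hδ0 : 0 < δ := by rw [hδ]; positivity
  have hδP : δ * H = c' := by rw [hδ]; field_simp
  have hδP1 : δ ≤ δ * H := le_mul_of_one_le_right hδ0.le hH
  have hδ1 : δ ≤ 1 / 2 := by linarith
  have hδP2 : δ * (1 + H) ≤ c0 := by linarith
  obtain ⟨L, hL, h⟩ := hb N T D hS H hH ι F lam (fun _ => 1)
    (fun i => ⟨(hF i).1, (hF i).2, hn1 i⟩) (fun _ => zero_le_one) δ hδ (fun Y _ hY => by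
      have h1 := hK N T D hS ι F lam H (fun i => ⟨(hF i).1, (hF i).2, hn1 i⟩) hO hH0.le δ hδ0
        hδ1 hδP2 Y hY
      simpa only [ENNReal.ofReal_one] using h1)
  refine ⟨L, hL, fun t0 J hJ hJH => ?_⟩
  have h2 := h t0 J hJ hJH
  simpa only [one_mul] using h2

/-- the same for given weights -/
theorem pf_GH1 (hPRF : T_PRF) (hBW1 : T_BW1) (hGB1 : T_GB1) : T_GH1 := by
  obtain ⟨χ, hχ⟩ := hPRF
  intro m hm1 r ε hr hε
  obtain ⟨c0, CM, AM, hc0, hCM, hK⟩ := hBW1 m χ r hm1 hχ hr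
  obtain ⟨c', hc', hc'1, hc'0⟩ : ∃ c' : ℝ, 0 < c' ∧ c' ≤ 1 / 2 ∧ c' ≤ c0 / 2 :=
    ⟨min (1 / 2) (c0 / 2), lt_min (by norm_num) (by positivity), min_le_left _ _,
      min_le_right _ _⟩
  obtain ⟨C, hC, hb⟩ := hGB1 m hm1 ε hε χ hχ c0 CM AM hc0 hCM c' hc' hc'1
  refine ⟨C, hC, ?_⟩
  intro N _ T D hS H hH ι _ _ F lam hF hO
  have hH0 : 0 < H := by linarith
  have hHn : ∀ i, 0 ≤ Hn r D (F i) := fun i => integral_nonneg fun u => by positivity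
  obtain ⟨δ, hδ⟩ : ∃ δ : ℝ, δ = c' / H := ⟨_, rfl⟩
  have hδ0 : 0 < δ := by rw [hδ]; positivity
  have hδP : δ * H = c' := by rw [hδ]; field_simp
  have hδP1 : δ ≤ δ * H := le_mul_of_one_le_right hδ0.le hH
  have hδ1 : δ ≤ 1 / 2 := by linarith
  have hδP2 : δ * (1 + H) ≤ c0 := by linarith
  exact hb N T D hS H hH ι F lam (fun i => (Hn r D (F i))⁻¹)
    (fun i => ⟨(hF i).1, (hF i).2, hO.one i⟩) (fun i => inv_nonneg.2 (hHn i)) δ hδ (fun Y _ hY =>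
      hK N T D hS ι F lam H (fun i => ⟨(hF i).1, (hF i).2⟩) hO hH0.le δ hδ0 hδ1 hδP2 Y hY)

end Pool.Agent.H47.THN
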