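import Pool.Agent.H47.THN.Targets
import Pool.Agent.H27.L1.H49.GHY.KCD
import Pool.Agent.H27.L1.H13.GHY.CGB

/-!
Row KC1 of the board thn: the kernel of one Hecke operator, its majorant and the kernel as a sum.
-/

set_option autoImplicit false

namespace Pool.Agent.H47.THN

open MeasureTheory Pool.Agent.H27.L1.H34.GM Pool.Agent.H27.L1.H34.GZ Pool.Agent.H27.L1.H34.GU
  Pool.Agent.H27.L1.H34.GA Pool.Agent.H27.L1.H19.GZ Pool.Agent.H27.L1.H68.GHY
open Pool.Agent.H27.L1.H49.GHY (bi_supp1 sz_finite2)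

/-- the number of lattices is positive -/
theorem one_le_NL (hIDX : T_IDX) {m : ℕ} {γ : ZM m} (hd : γ.det ≠ 0) : 1 ≤ NL γ := by
  have hf := Pool.Agent.H27.L1.H13.GHY.fin_sub hIDX hd
  have hne : Nonempty {M : AddSubgroup (Fin m → ℤ) // ∀ i, γ i ∈ M} :=
    ⟨⟨⊤, fun _ => AddSubgroup.mem_top _⟩⟩
  unfold NL
  exact Nat.one_le_iff_ne_zero.2 (Nat.card_pos.ne')

open Classical in
/-- the terms of the kernel -/
private lemma K1_terms (m N : ℕ) (Φ : Mat m → ℂ) (a : ℕ → ℂ) (d x0 : ℝ) (g h : Mat m)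
    (x : VN m N) :
    ∃ f : VN m N → ZM m → ℂ, (∀ w, K1 Φ a d x0 g x h w = ∑' γ : ZM m, f w γ) ∧
    (∀ (w : VN m N) (γ : ZM m), (ac N γ x = w ∧ Pr w ∧ γ.det ≠ 0 ∧ wd x0 d γ.det.natAbs) →
      f w γ = a γ.det.natAbs * Φ (kk (aN (cR γ)) h (cR γ) g)) ∧
    (∀ (w : VN m N) (γ : ZM m), ¬ (ac N γ x = w ∧ Pr w ∧ γ.det ≠ 0 ∧
      wd x0 d γ.det.natAbs) → f w γ = 0) :=
  ⟨fun w γ => if ac N γ x = w ∧ Pr w ∧ γ.det ≠ 0 ∧ wd x0 d γ.det.natAbs then
    a γ.det.natAbs * Φ (kk (aN (cR γ)) h (cR γ) g) else 0, fun _ => rfl,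
    fun _ _ h => if_pos h, fun _ _ h => if_neg h⟩

/-- the support of the coefficients -/
theorem supp_sqrt {y : ℝ} {a : ℕ → ℂ} (hy : 1 ≤ y) (ha : Coe y a) {n : ℕ} (hn : a n ≠ 0) :
    Real.sqrt y ^ 2 / 4 < (n : ℝ) ∧ (n : ℝ) ≤ Real.sqrt y ^ 2 := by
  rw [Real.sq_sqrt (by linarith)]
  have h := ha.supp n hn
  exact ⟨by linarith [h.1], h.2⟩

open Classical in
theorem pf_KC1 (hIDX : T_IDX) : T_KC1 := by
  intro m N _ χ hm hN hχ y a d x0 hy ha hd hd2 hx0
  refine ⟨?_, ?_⟩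
  · intro g h x w
    unfold K1 Kd
    rw [ofReal_norm]
    refine enorm_tsum_le_tsum_enorm.trans (ENNReal.tsum_le_tsum fun γ => ?_)
    by_cases h1 : ac N γ x = w ∧ Pr w ∧ γ.det ≠ 0 ∧ wd x0 d γ.det.natAbs
    · rw [if_pos h1]
      by_cases h2 : bi m χ d (kk (aN (cR γ)) h (cR γ) g) = 0
      · rw [h2]
        simp
      · by_cases h6 : a γ.det.natAbs = 0
        · rw [h6]
          simp
        · have h3 := bi_supp1 hχ hd _ h2
          have h7 := supp_sqrt hy ha h6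
          rw [if_pos ⟨h1.1, h1.2.1, h1.2.2.2, h7.1, h7.2, h3⟩, ← ofReal_norm]
          have h8 : (NL γ : ENNReal) = ENNReal.ofReal ((NL γ : ℕ) : ℝ) :=
            (ENNReal.ofReal_natCast _).symm
          rw [h8]
          apply ENNReal.ofReal_le_ofReal
          rw [norm_mul]
          have h9 : (1 : ℝ) ≤ (NL γ : ℝ) := by
            exact_mod_cast one_le_NL hIDX h1.2.2.1
          calc ‖a γ.det.natAbs‖ * ‖bi m χ d (kk (aN (cR γ)) h (cR γ) g)‖ ≤ 1 * 1 :=
                mul_le_mul (ha.bd _) (Pool.Agent.H27.L1.H79.GA.bi_norm_le hχ d _) (norm_nonneg _)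
                  zero_le_one
            _ ≤ _ := by linarith
    · rw [if_neg h1]
      simp
  · intro F hF g h x hg hh
    have hfin := sz_finite2 hm (Real.sqrt y) g h hg hh
    obtain ⟨f, hf, hf1, hf0⟩ := K1_terms m N (bi m χ d) a d x0 g h x
    have hsum : ∀ w : VN m N, Summable (fun γ : ZM m => f w γ * F w) := by
      intro w
      apply summable_of_hasFiniteSupport
      apply Set.Finite.subset hfin
      intro γ hγ
      rw [Function.mem_support] at hγ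
      by_cases h1 : ac N γ x = w ∧ Pr w ∧ γ.det ≠ 0 ∧ wd x0 d γ.det.natAbs
      · rw [hf1 w γ h1] at hγ
        have h2 := left_ne_zero_of_mul hγ
        have h3 := supp_sqrt hy ha (left_ne_zero_of_mul h2)
        exact ⟨h3.1, h3.2, Pool.Agent.H27.L1.H79.GA.bi_supp hχ hd hd2 _ (right_ne_zero_of_mul h2)⟩
      · rw [hf0 w γ h1, zero_mul] at hγ
        exact absurd rfl hγ
    have h1 : ∑ w : VN m N, K1 (bi m χ d) a d x0 g x h w * F w =
        ∑ w : VN m N, ∑' γ : ZM m, f w γ * F w := by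
      apply Finset.sum_congr rfl
      intro w _
      rw [hf, tsum_mul_right]
    rw [h1, ← Summable.tsum_finsetSum fun w _ => hsum w]
    apply tsum_congr
    intro γ
    by_cases h2 : γ.det ≠ 0 ∧ wd x0 d γ.det.natAbs
    · rw [if_pos h2, Finset.sum_eq_single (ac N γ x)]
      · by_cases h3 : Pr (ac N γ x)
        · rw [hf1 _ γ ⟨rfl, h3, h2⟩, mul_assoc]
        · rw [hF _ h3, mul_zero, mul_zero, mul_zero]
      · intro w _ hw
        rw [hf0 w γ fun h => hw h.1.symm, zero_mul]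
      · intro h
        exact absurd (Finset.mem_univ _) h
    · rw [if_neg h2, zero_mul]
      symm
      apply Finset.sum_eq_zero
      intro w _
      rw [hf0 w γ fun h => h2 h.2.2, zero_mul]

end Pool.Agent.H47.THN
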