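import Pool.Agent.H47.THN.Targets

/-!
Board thn: the moments of order 2 and 4 in a window, one formula, one level, all the admissible weights.
-/

set_option autoImplicit false

namespace Pool.Agent.H47.THN

open MeasureTheory Pool.Agent.H27.L1.H34.GM Pool.Agent.H27.L1.H34.GZ Pool.Agent.H27.L1.H34.GU
  Pool.Agent.H27.L1.H34.GA Pool.Agent.H27.L1.H68.GHY Pool.Agent.H27.L1.H34.GHY
open Pool.Agent.H27.L1.H68.GHK (ip rt Hn OrS)

/-- the size of the moment of order `2 k` in a window: `N ^ m H ^ (m ^ 2)` is about the number of the pairs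
`(F, t)`, `N (H + |t0|) ^ m` the analytic conductor -/
noncomputable def QK (m k N : ℕ) (H t0 : ℝ) : ℝ :=
  (N : ℝ) ^ m * H ^ (m ^ 2) + ((N : ℝ) * (H + |t0|) ^ m) ^ ((k : ℝ) * m / 2)

theorem QK_one {m N : ℕ} {H t0 : ℝ} (hN : 1 ≤ N) (hH : 1 ≤ H) : QK m 1 N H t0 = Q2 m N H t0 := by
  have hN0 : (0 : ℝ) ≤ N := Nat.cast_nonneg N
  have hP : 0 ≤ H + |t0| := by positivity
  unfold QK Q2
  rw [Real.mul_rpow hN0 (by positivity), ← Real.rpow_natCast (H + |t0|) m, ← Real.rpow_mul hP]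
  congr 3
  · push_cast
    ring
  · push_cast
    ring

theorem QK_two {m N : ℕ} {H t0 : ℝ} (hN : 1 ≤ N) (hH : 1 ≤ H) :
    (N : ℝ) ^ m * (H + |t0|) ^ (m ^ 2) ≤ QK m 2 N H t0 := by
  have h1 : ((N : ℝ) * (H + |t0|) ^ m) ^ (((2 : ℕ) : ℝ) * m / 2) =
      (N : ℝ) ^ m * (H + |t0|) ^ (m ^ 2) := by
    rw [show (((2 : ℕ) : ℝ) * m / 2) = ((m : ℕ) : ℝ) by push_cast; ring, Real.rpow_natCast, mul_pow,
      ← pow_mul, ← sq]
  unfold QK
  rw [h1]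
  have : 0 ≤ (N : ℝ) ^ m * H ^ (m ^ 2) := by positivity
  linarith

/-- change of the size by a constant factor -/
theorem QK_scale {m k N : ℕ} {H t0 c ε : ℝ} (hk : k ≤ 2) (hH : 1 ≤ H) (hc : 1 ≤ c) (hε : 0 < ε) :
    ((N : ℝ) * (c * H + |t0|)) ^ ε * QK m k N (c * H) t0 ≤
      c ^ ε * c ^ (m ^ 2) * (((N : ℝ) * (H + |t0|)) ^ ε * QK m k N H t0) := by
  have hN0 : (0 : ℝ) ≤ N := Nat.cast_nonneg N
  have ht : 0 ≤ |t0| := abs_nonneg _
  have h1 : c * H + |t0| ≤ c * (H + |t0|) := by nlinarith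
  have h2 : ((N : ℝ) * (c * H + |t0|)) ^ ε ≤ c ^ ε * ((N : ℝ) * (H + |t0|)) ^ ε := by
    rw [← Real.mul_rpow (by positivity) (by positivity)]
    refine Real.rpow_le_rpow (by positivity) ?_ hε.le
    calc (N : ℝ) * (c * H + |t0|) ≤ N * (c * (H + |t0|)) := mul_le_mul_of_nonneg_left h1 hN0
      _ = _ := by ring
  have h3 : QK m k N (c * H) t0 ≤ c ^ (m ^ 2) * QK m k N H t0 := by
    unfold QK
    rw [mul_add]
    refine add_le_add (le_of_eq (by rw [mul_pow]; ring)) ?_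
    have h4 : (N : ℝ) * (c * H + |t0|) ^ m ≤ c ^ m * (N * (H + |t0|) ^ m) := by
      calc (N : ℝ) * (c * H + |t0|) ^ m ≤ N * (c * (H + |t0|)) ^ m := by gcongr
        _ = _ := by rw [mul_pow]; ring
    have hk' : (k : ℝ) ≤ 2 := by exact_mod_cast hk
    have hm0 : (0 : ℝ) ≤ m := Nat.cast_nonneg m
    have h5 : (0 : ℝ) ≤ (k : ℝ) * m / 2 := by positivity
    have h6 : (k : ℝ) * m / 2 ≤ m := by nlinarith
    calc ((N : ℝ) * (c * H + |t0|) ^ m) ^ ((k : ℝ) * m / 2) ≤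
        (c ^ m * (N * (H + |t0|) ^ m)) ^ ((k : ℝ) * m / 2) :=
          Real.rpow_le_rpow (by positivity) h4 h5
      _ = (c ^ m) ^ ((k : ℝ) * m / 2) * (N * (H + |t0|) ^ m) ^ ((k : ℝ) * m / 2) :=
          Real.mul_rpow (by positivity) (by positivity)
      _ ≤ (c ^ m) ^ (m : ℝ) * (N * (H + |t0|) ^ m) ^ ((k : ℝ) * m / 2) :=
          mul_le_mul_of_nonneg_right (Real.rpow_le_rpow_of_exponent_le (one_le_pow₀ hc) h6)
            (by positivity)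
      _ = _ := by rw [Real.rpow_natCast, ← pow_mul, ← sq]
  have h7 : 0 ≤ QK m k N (c * H) t0 := by unfold QK; positivity
  calc ((N : ℝ) * (c * H + |t0|)) ^ ε * QK m k N (c * H) t0 ≤
      (c ^ ε * ((N : ℝ) * (H + |t0|)) ^ ε) * (c ^ (m ^ 2) * QK m k N H t0) := by
        gcongr
    _ = _ := by ring

/-- one level, `k = 1, 2`, all windows, all the admissible weights -/
theorem un_level (hLV1 : T_LV1) (m : ℕ) (hm1 : 1 ≤ m) (ε : ℝ) (hε : 0 < ε) : ∃ C : ℝ, 0 < C ∧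
    ∀ (N : ℕ) [NeZero N] (T : ℕ → Finset (ZM m)) (D : Set (V m)), SysZ m N T D →
    ∀ H : ℝ, 1 ≤ H → ∀ (S : Type) [Fintype S] [DecidableEq S]
      (F : S → Mat m → VN m N → ℂ) (lam : S → ℕ → ℂ) (W : S → ℝ),
      (∀ i, CusB m N T (F i) (lam i) ∧ Lip D (F i) H) → Orthn D F → (∀ i, 0 ≤ W i) →
      (∀ i, W i ≤ 1 ∨ (∃ mu : Fin m → ℂ, EigU m N T (F i) (lam i) mu ∧
          W i ≤ Pool.Agent.H27.L1.H34.GHK.pl mu) ∨
        ((∀ j, j ≠ i → ∀ u : Mat m, u.det ≠ 0 → ip D (rt u (F i)) (F j) = 0) ∧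
          W i ≤ (Hn (1 / (2 * (m : ℝ))) D (F i))⁻¹)) →
      ∃ L : S → ℂ → ℂ, (∀ i, IsL m 1 (lam i) (L i)) ∧
        ∀ k : ℕ, 1 ≤ k → k ≤ 2 → ∀ (t0 : ℝ) (J : S → Finset ℝ), (∀ i, Wsp (J i)) →
        (∀ i, ∀ t ∈ J i, |t - t0| ≤ H) →
          ∑ i, W i * ∑ t ∈ J i, ‖L i (1 / 2 + t * Complex.I)‖ ^ (2 * k) ≤
            C * (((N : ℝ) * (H + |t0|)) ^ ε * QK m k N H t0) := by
  obtain ⟨C1, hC1, h1⟩ := hLV1 m hm1 ε hε
  obtain ⟨C2, hC2, h2⟩ := Pool.Agent.H27.L1.H34.GHK.c_ALL m hm1 ε hε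
  refine ⟨C1 + C2, by positivity, ?_⟩
  intro N _ T D hS H hH S _ _ F lam W hF ho hW0 hW
  obtain ⟨L, hL, hb⟩ := h1 N T D hS H hH S F lam W hF ho hW0 hW
  refine ⟨L, hL, ?_⟩
  intro k hk1 hk2 t0 J hJ hJH
  have hN1 : 1 ≤ N := by
    have := hS.two_le
    omega
  have hQ0 : 0 ≤ ((N : ℝ) * (H + |t0|)) ^ ε * QK m k N H t0 := by
    unfold QK
    positivity
  obtain rfl | rfl : k = 1 ∨ k = 2 := by omega
  · refine (hb t0 J hJ hJH).trans ?_
    rw [← QK_one hN1 hH, mul_assoc]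
    exact mul_le_mul_of_nonneg_right (by linarith) hQ0
  · have hP : 1 ≤ H + |t0| := by
      have := abs_nonneg t0
      linarith
    have hlip : ∀ i, Lip D (F i) (H + |t0|) := by
      intro i w hw
      refine ((hF i).2 w hw).trans ?_
      have h3 : 0 ≤ sz (w - 1) := Pool.Agent.H27.L1.H84.GA.BD.sz_nn _
      have h4 : H ≤ H + |t0| := by
        have := abs_nonneg t0
        linarith
      gcongr
    obtain ⟨L', hL', hb'⟩ := h2 N T D hS (H + |t0|) hP S F lam W (fun i => ⟨(hF i).1, hlip i⟩) ho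
      hW0 hW
    have e : ∀ i, L i = L' i := fun i => Pool.Agent.H27.L1.H34.GHK.isl_eq (hL i) (hL' i)
    simp only [e]
    have h5 := hb' J hJ (fun i t ht => by
      have h6 := abs_add_le (t - t0) t0
      rw [sub_add_cancel] at h6
      exact h6.trans (by linarith [hJH i t ht]))
    refine h5.trans ?_
    rw [show C2 * ((N : ℝ) * (H + |t0|)) ^ ε * (N : ℝ) ^ m * (H + |t0|) ^ (m ^ 2) =
      C2 * (((N : ℝ) * (H + |t0|)) ^ ε * ((N : ℝ) ^ m * (H + |t0|) ^ (m ^ 2))) by ring]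
    calc C2 * (((N : ℝ) * (H + |t0|)) ^ ε * ((N : ℝ) ^ m * (H + |t0|) ^ (m ^ 2))) ≤
        C2 * (((N : ℝ) * (H + |t0|)) ^ ε * QK m 2 N H t0) := by
          gcongr
          exact QK_two hN1 hH
      _ ≤ _ := mul_le_mul_of_nonneg_right (by linarith) hQ0

end Pool.Agent.H47.THN
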