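import Pool.Agent.H27.L1.H34.GHY.GBI

/-!
Board thn: from well spaced points to integrals over windows.
-/

set_option autoImplicit false

namespace Pool.Agent.H47.THN

open MeasureTheory Pool.Agent.H27.L1.H34.GHY

/-- a bound for the sums over well spaced points of a window gives the bound for the integrals -/
theorem spaced_win {ι : Type} [Fintype ι] (H t0 : ℝ) {g : ι → ℝ → ℝ} {Q : ℝ}
    (hg0 : ∀ i t, 0 ≤ g i t) (hgc : ∀ i, Continuous (g i)) (hQ : 0 ≤ Q)
    (hJ : ∀ J : ι → Finset ℝ, (∀ i, Wsp (J i)) → (∀ i, ∀ t ∈ J i, |t - t0| ≤ H) →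
      ∑ i, ∑ t ∈ J i, g i t ≤ Q) :
    ∑ i, ∫⁻ t in Set.Icc (t0 - H) (t0 + H), ENNReal.ofReal (g i t) ≤ ENNReal.ofReal Q := by
  have h1 := spaced_int (ι := ι) H (g := fun i t => g i (t + t0)) (Q := Q)
    (fun i t => hg0 i _) (fun i => (hgc i).comp (continuous_id.add continuous_const)) hQ (by
      intro J hJ1 hJ2
      have h2 := hJ (fun i => (J i).map (addRightEmbedding t0)) (fun i => by
        intro a ha b hb hab
        rw [Finset.mem_map] at ha hb
        obtain ⟨a', ha', rfl⟩ := ha
        obtain ⟨b', hb', rfl⟩ := hb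
        have h3 : a' ≠ b' := fun h => hab (by rw [h])
        have h4 := hJ1 i a' ha' b' hb' h3
        simp only [addRightEmbedding_apply]
        rw [show a' + t0 - (b' + t0) = a' - b' by ring]
        exact h4) (fun i t ht => by
        rw [Finset.mem_map] at ht
        obtain ⟨t', ht', rfl⟩ := ht
        simp only [addRightEmbedding_apply]
        rw [show t' + t0 - t0 = t' by ring]
        exact hJ2 i t' ht')
      simp only [Finset.sum_map, addRightEmbedding_apply] at h2
      exact h2)
  refine le_trans (le_of_eq ?_) h1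
  refine Finset.sum_congr rfl (fun i _ => ?_)
  have h5 := (measurePreserving_add_right (volume : Measure ℝ) t0).setLIntegral_comp_preimage_emb
    (MeasurableEquiv.addRight t0).measurableEmbedding (fun t => ENNReal.ofReal (g i t))
    (Set.Icc (t0 - H) (t0 + H))
  rw [← h5, Set.preimage_add_const_Icc]
  congr 3
  · ring
  · ring

end Pool.Agent.H47.THN
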